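import Pool.Agent.W_a4f561_P73.PDef
import Pool.Agent.W_a4f561_E.Link70

/-!
MP_a4f561_co, polylog (helper1's proof, section 2): the mirror image of the law, of paths and of lenses, and the choice of the
trunk (helper70).
-/

set_option autoImplicit false

namespace Pool.Agent.W_a4f561_P70

open Pool.Agent.W_a4f561_h26 Pool.Agent.W_a4f561_P73 Pool.Agent.W_a4f561_E

section mir

variable {V : Type} {G : Bars V} {σ : St V} {D E : Set V} {π : V → V} {x w : V}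

theorem law_mir (hB : Base G σ) (ω : V × Bool → Bool) : law G.mir σ.mir ω = law G σ ω := by
  classical
  funext v
  unfold law
  by_cases h : v ∈ σ.S ∪ σ.Dec
  · rw [if_pos (show v ∈ σ.mir.S ∪ σ.mir.Dec from h), if_pos h]
    rfl
  · rw [if_neg (show v ∉ σ.mir.S ∪ σ.mir.Dec from h), if_neg h]
    have hv : G.inn v := ⟨fun e => h (Or.inl (e ▸ hB.bot_mem)), fun e => h (Or.inl (e ▸ hB.top_mem))⟩
    obtain ⟨h1, h2⟩ := zz_mir G hv
    rw [coin_mir G hv, h1, h2]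

theorem base_mir (hB : Base G σ) : Base G.mir σ.mir :=
  ⟨hB.top_mem, hB.bot_mem, W_a4f561_h26.ch_mir.2 hB.ch, hB.cl⟩

theorem PD_mir : PD G.mir D π x w ↔ PD G D π x w := Iff.rfl

theorem LV_mir : LV G.mir D E π x ↔ LV G D E π x := Iff.rfl

theorem fin_mir : Fin' G.mir σ.mir π ↔ Fin' G σ π :=
  and_congr W_a4f561_h26.ch_mir Iff.rfl

theorem lens_mir {s : ℕ} (h : LENS G σ D s) : LENS G.mir σ.mir D s := by
  intro τ hτ x z x' w π π' h1 h2 hx hz hx' hxz hzx' h3 h4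
  have e1 : G.r z < G.r x := (W_a4f561_B31.mir_r_lt G x z).1 hxz
  have e2 : G.r x' < G.r z := (W_a4f561_B31.mir_r_lt G z x').1 hzx'
  exact h τ hτ x' z x w π' π (fin_mir.1 h2) (fin_mir.1 h1) hx' hz hx e2 e1 h4 h3

/-- A path in `D` up to `w` contains `w`. -/
theorem PD.mem (h : PD G D π x w) : w ∈ D := h.2 w h.1 le_rfl

end mir

section trunk

variable {V : Type} [Fintype V] [DecidableEq V]

/-- Existence of a good outcome. -/
theorem trunk_of {G : Bars V} {σ : St V} {D E : Set V} {δ κ : ℝ} {z : V} {N : ℕ}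
    (h1 : ∀ w ∈ D, pr (fun _ => none) (fun ω => PD G D (law G σ ω) z w ∧ N + 1 ≤ bcnt G σ D δ ω z w) ≤
      (100 / 101 : ℝ) ^ (N + 1) + 2000 * (Fintype.card V : ℝ) ^ 2 * δ)
    (h2 : ∀ w ∈ D, pr (fun _ => none) (fun ω => PD G D (law G σ ω) z w ∧ N + 1 ≤ bcnt G.mir σ.mir D δ ω z w) ≤
      (100 / 101 : ℝ) ^ (N + 1) + 2000 * (Fintype.card V : ℝ) ^ 2 * δ)
    (hδ : 0 ≤ δ) (hκ : κ ≤ pr (fun _ => none) (fun ω => LV G D E (law G σ ω) z))
    (hN : 2 * (Fintype.card V : ℝ) * ((100 / 101 : ℝ) ^ (N + 1) + 2000 * (Fintype.card V : ℝ) ^ 2 * δ) < κ) :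
    ∃ ω, LV G D E (law G σ ω) z ∧ ∀ w, PD G D (law G σ ω) z w → bcnt G σ D δ ω z w ≤ N ∧
      bcnt G.mir σ.mir D δ ω z w ≤ N := by
  classical
  have hc0 : (0 : ℝ) ≤ (100 / 101 : ℝ) ^ (N + 1) + 2000 * (Fintype.card V : ℝ) ^ 2 * δ := by positivity
  have hcard : ((Finset.univ.filter fun w : V => w ∈ D).card : ℝ) ≤ (Fintype.card V : ℝ) := by
    exact_mod_cast (Finset.card_le_univ _)
  obtain ⟨ω, _, hg, hb⟩ := exists_good (C := V × Bool) (fun _ => none)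
    ((Finset.univ.filter fun w : V => w ∈ D) ×ˢ (Finset.univ : Finset Bool))
    (fun i ω => if i.2 = true then (PD G D (law G σ ω) z i.1 ∧ N + 1 ≤ bcnt G σ D δ ω z i.1)
      else (PD G D (law G σ ω) z i.1 ∧ N + 1 ≤ bcnt G.mir σ.mir D δ ω z i.1))
    (fun ω => LV G D E (law G σ ω) z) (by
      rw [← pr_eq]
      refine lt_of_le_of_lt ?_ (hN.trans_le hκ)
      rw [Finset.sum_product]
      calc _ ≤ ∑ _w ∈ (Finset.univ.filter fun w : V => w ∈ D),
            2 * ((100 / 101 : ℝ) ^ (N + 1) + 2000 * (Fintype.card V : ℝ) ^ 2 * δ) := by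
            refine Finset.sum_le_sum fun w hw => ?_
            have hwD : w ∈ D := (Finset.mem_filter.1 hw).2
            rw [Fintype.sum_bool]
            have e1 := h1 w hwD
            have e2 := h2 w hwD
            rw [pr_eq] at e1 e2
            simp only [if_true, if_neg Bool.false_ne_true]
            linarith
        _ = ((Finset.univ.filter fun w : V => w ∈ D).card : ℝ) *
            (2 * ((100 / 101 : ℝ) ^ (N + 1) + 2000 * (Fintype.card V : ℝ) ^ 2 * δ)) := by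
            rw [Finset.sum_const, nsmul_eq_mul]
        _ ≤ (Fintype.card V : ℝ) * (2 * ((100 / 101 : ℝ) ^ (N + 1) + 2000 * (Fintype.card V : ℝ) ^ 2 * δ)) :=
            mul_le_mul_of_nonneg_right hcard (by positivity)
        _ = _ := by ring)
  refine ⟨ω, hg, fun w hw => ?_⟩
  have hwD : w ∈ D := PD.mem hw
  have e1 := hb (w, true) (Finset.mem_product.2 ⟨Finset.mem_filter.2 ⟨Finset.mem_univ _, hwD⟩, Finset.mem_univ _⟩)
  have e2 := hb (w, false) (Finset.mem_product.2 ⟨Finset.mem_filter.2 ⟨Finset.mem_univ _, hwD⟩, Finset.mem_univ _⟩)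
  simp only [if_true, if_neg Bool.false_ne_true, not_and, not_le] at e1 e2
  exact ⟨Nat.lt_succ_iff.1 (e1 hw), Nat.lt_succ_iff.1 (e2 hw)⟩

/-- What the harm lemma gives. -/
def Harm2 (V : Type) [Fintype V] [DecidableEq V] : Prop :=
  ∀ (G : Bars V) (σ : St V) (D : Set V) (s0 : ℕ) (δ : ℝ) (z w : V) (j : ℕ), Base G σ → HD G σ → (∀ v ∈ D, v ∉ σ.S) →
    LENS G σ D s0 → (∀ v ∈ D, s0 < G.t v) → z ∈ D → w ∈ D → 0 ≤ δ →
    pr (fun _ => none) (fun ω => PD G D (law G σ ω) z w ∧ j ≤ bcnt G σ D δ ω z w) ≤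
      (100 / 101 : ℝ) ^ j + 2000 * (Fintype.card V : ℝ) ^ 2 * δ

/-- The trunk. -/
theorem trunk2 (H : Harm2 V) {G : Bars V} {σ : St V} {D E : Set V} {s0 N : ℕ} {δ κ : ℝ} {z : V}
    (hB : Base G σ) (hD : HD G σ) (hD' : HD G.mir σ.mir) (hS : ∀ v ∈ D, v ∉ σ.S) (hL : LENS G σ D s0)
    (hs : ∀ v ∈ D, s0 < G.t v) (hz : z ∈ D) (hδ : 0 ≤ δ)
    (hκ : κ ≤ pr (fun _ => none) (fun ω => LV G D E (law G σ ω) z))
    (hN : 2 * (Fintype.card V : ℝ) * ((100 / 101 : ℝ) ^ (N + 1) + 2000 * (Fintype.card V : ℝ) ^ 2 * δ) < κ) :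
    ∃ ω, LV G D E (law G σ ω) z ∧ ∀ w, PD G D (law G σ ω) z w → bcnt G σ D δ ω z w ≤ N ∧
      bcnt G.mir σ.mir D δ ω z w ≤ N := by
  refine trunk_of (fun w hw => H G σ D s0 δ z w (N + 1) hB hD hS hL hs hz hw hδ) (fun w hw => ?_) hδ hκ hN
  have h := H G.mir σ.mir D s0 δ z w (N + 1) (base_mir hB) hD' hS (lens_mir hL) hs hz hw hδ
  simp only [law_mir hB] at h
  exact h

end trunk

end Pool.Agent.W_a4f561_P70
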