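import Pool.Agent.W_a4f561_P66.Cust66
import Pool.Agent.W_a4f561_P2.I3

/-!
MP_a4f561_co, polylog pages (helper70): after the draw of a phase the piece goes on (`draw_PS`).
-/

set_option autoImplicit false

namespace Pool.Agent.W_a4f561_P70

open Pool.Agent.W_a4f561_h26 Pool.Agent.W_a4f561_P73 Pool.Agent.W_a4f561_P45 Pool.Agent.W_a4f561_P8
open Pool.Agent.W_a4f561_P16 Pool.Agent.W_a4f561_P66
open Pool.Agent.W_a4f561_P25 (Tc Ar Area)
open Pool.Agent.W_a4f561_h1

variable {V : Type} {G : Bars V}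

/-- Two choice functions which agree on the route of `r` before `z`: the same route up to `z`. -/
theorem orb_ag {f g : V → V} (hf : Ch G f) {r z v : V} (hz : G.inn z)
    (hag : ∀ u, Orb f r u → G.t u < G.t z → g u = f u) (hv : Orb f r v) (ht : G.t v ≤ G.t z) : Orb g r v := by
  obtain ⟨k, hk⟩ := hv
  have key : ∀ j, j ≤ k → g^[j] r = f^[j] r := by
    intro j
    induction j with
    | zero => exact fun _ => rfl
    | succ j ih =>
      intro hj
      rw [Function.iterate_succ_apply', Function.iterate_succ_apply', ih (by omega)]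
      by_cases h1 : G.t (f^[j] r) < G.t z
      · exact hag _ ⟨j, rfl⟩ h1
      · exfalso
        rw [not_lt] at h1
        have h3 : Orb f (f (f^[j] r)) v := ⟨k - (j + 1), by
          rw [← hk, ← Function.iterate_succ_apply' f j r, ← Function.iterate_add_apply]
          congr 1
          omega⟩
        have h4 := ch_le hf (f^[j] r)
        have h5 := orb_t hf h3
        have h6 : f^[j] r = z := G.t_inj (by omega)
        rw [h6] at h5
        have h7 := ch_t hf hz
        omega
  exact ⟨k, by rw [key k le_rfl, hk]⟩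

/-- The converse. -/
theorem orb_ag' {f g : V → V} (hg : Ch G g) {r z v : V} (hz : G.inn z)
    (hag : ∀ u, Orb f r u → G.t u < G.t z → g u = f u) (hv : Orb g r v) (ht : G.t v ≤ G.t z) : Orb f r v := by
  obtain ⟨k, hk⟩ := hv
  have key : ∀ j, j ≤ k → f^[j] r = g^[j] r := by
    intro j
    induction j with
    | zero => exact fun _ => rfl
    | succ j ih =>
      intro hj
      have h0 := ih (by omega)
      rw [Function.iterate_succ_apply', Function.iterate_succ_apply', h0]
      by_cases h1 : G.t (g^[j] r) < G.t z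
      · exact (hag _ ⟨j, h0⟩ h1).symm
      · exfalso
        rw [not_lt] at h1
        have h3 : Orb g (g (g^[j] r)) v := ⟨k - (j + 1), by
          rw [← hk, ← Function.iterate_succ_apply' g j r, ← Function.iterate_add_apply]
          congr 1
          omega⟩
        have h4 := ch_le hg (g^[j] r)
        have h5 := orb_t hg h3
        have h6 : g^[j] r = z := G.t_inj (by omega)
        rw [h6] at h5
        have h7 := ch_t hg hz
        omega
  exact ⟨k, by rw [key k le_rfl, hk]⟩

variable [Fintype V] [DecidableEq V] {rnk : V → ℕ} {N : ℕ} {X : MS V} {S0 : Set V} {r z e vl : V}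
  {ω : V × Bool → Bool} {σ1 : St V}

/-- (3) the piece goes on. -/
theorem draw_PS (hW : WI G rnk N 0 X z) (hP : PS G rnk X S0 r z) (hz : z ∉ X.σ.S)
    (hE : Exi (X.D (X.cell z)) G (law G X.σ ω) z e) (heE : e ∈ X.E G (X.cell z))
    (hD : Dr1 G X.σ (X.D (X.cell z)) ω z e vl σ1) :
    PS G rnk (X.draw σ1 (Bp G X.σ (X.D (X.cell z)) ω z) {u | Area G σ1.pi z (G.t vl) u} z r) S0 r e := by
  classical
  have hl : Ch G (law G X.σ ω) := law_ch hW.inv.bot_mem hW.inv.top_mem hW.inv.ch ω
  have hzi : G.inn z := ⟨fun h => hz (h ▸ hW.inv.bot_mem), fun h => hz (h ▸ hW.inv.top_mem)⟩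
  have hDi : ∀ v ∈ X.D (X.cell z), G.inn v := fun v hv => D_inn hW.inv hv
  have hBn : ∀ v ∈ Bp G X.σ (X.D (X.cell z)) ω z, v ∉ X.σ.S := fun v hv => (pd_D hv).1
  have hvi : G.inn vl := hDi _ (pd_D hD.vlB)
  have hvl : ∀ v, PD G (X.D (X.cell z)) (law G X.σ ω) z v → G.t v ≤ G.t vl := fun v hv =>
    pd_last hl hE hD.vlB hD.vle hv
  have hte : G.t vl < G.t e := ((pd_iff hE).1 hD.vlB).2
  have hzv : G.t z ≤ G.t vl := orb_t hl hD.vlB.1
  have hch : Ch G σ1.pi := hD.inv.ch
  have hag : ∀ u, Orb X.σ.pi r u → G.t u < G.t z → σ1.pi u = X.σ.pi u := fun u hu ht =>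
    hD.piO u (Or.inl (hP.pc u hu ht).1)
  have horz : Orb σ1.pi r z := orb_ag hW.inv.ch hzi hag hP.orb le_rfl
  have hze : Orb σ1.pi z e := by
    have h1 : Orb σ1.pi z vl := pd_orb (fun v hv => hD.piB v hv) hD.vlB hl
    have h2 := orb_step h1
    rwa [hD.piB vl hD.vlB, hD.vle] at h2
  have hafter : ∀ v, Orb σ1.pi r v → G.t z ≤ G.t v → G.t v < G.t e → v ∈ Bp G X.σ (X.D (X.cell z)) ω z := by
    intro v h1 h2 h3
    have h4 : Orb σ1.pi z v := orb_comp hch horz h1 h2
    have h5 : G.t v ≤ G.t vl := by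
      by_contra hc
      rw [not_le] at hc
      have h6 : Orb σ1.pi z vl := pd_orb (fun v hv => hD.piB v hv) hD.vlB hl
      obtain ⟨k, hk⟩ := orb_comp hch h6 h4 hc.le
      rcases k with _ | k
      · have h7 : vl = v := hk
        rw [h7] at hc
        exact lt_irrefl _ hc
      · have h7 : Orb σ1.pi e v := ⟨k, by
          rw [← hk, Function.iterate_succ_apply, hD.piB vl hD.vlB, hD.vle]⟩
        have h8 := orb_t hch h7
        omega
    exact orb_pd hl hch hE hDi hD.vlB hD.vle (fun v hv => hD.piB v hv) h4 h5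
  refine
    { sub := fun v hv => (hD.S v).2 (Or.inl (hP.sub hv))
      cl0 := fun v hv => by
        show σ1.pi v ∈ S0
        rw [hD.piO v (Or.inl (hP.sub hv))]
        exact hP.cl0 v hv
      bot0 := hP.bot0
      top0 := hP.top0
      low0 := hP.low0
      rts := ?_
      rS := hP.rS
      orb := orb_trans horz hze
      pc := ?_
      cp := ?_
      rt0 := ?_
      le := ?_
      nx := ?_
      nr := ?_ }
  · intro k h1 h2
    show rnk (if k = X.np + 1 then r else X.rt k) ≤ rnk r
    split_ifs with h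
    · exact le_rfl
    · exact hP.rts k h1 (by
        have h3 : k ≤ X.np + 1 := h2
        omega)
  · intro v h1 h2
    show v ∈ σ1.S ∧ v ∉ S0
    by_cases h3 : G.t v < G.t z
    · have h4 := hP.pc v (orb_ag' hch hzi hag h1 h3.le) h3
      exact ⟨(hD.S v).2 (Or.inl h4.1), h4.2⟩
    · have h4 := hafter v h1 (not_lt.1 h3) h2
      exact ⟨(hD.S v).2 (Or.inr h4), fun h5 => hBn v h4 (hP.sub h5)⟩
  · intro v h1 h2
    show Orb σ1.pi r v ∧ G.t v < G.t e ∧ (if (if v ∈ Bp G X.σ (X.D (X.cell z)) ω z then X.np + 1 else X.phs v) =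
      X.np + 1 then r else X.rt (if v ∈ Bp G X.σ (X.D (X.cell z)) ω z then X.np + 1 else X.phs v)) = r
    rcases (hD.S v).1 h1 with h3 | h3
    · obtain ⟨h4, h5, h6⟩ := hP.cp v h3 h2
      refine ⟨orb_ag hW.inv.ch hzi hag h4 h5.le, by omega, ?_⟩
      rw [if_neg (fun h => hBn v h h3), h6]
      split_ifs <;> rfl
    · refine ⟨orb_trans horz (pd_orb (fun v hv => hD.piB v hv) h3 hl), ((pd_iff hE).1 h3).2, ?_⟩
      rw [if_pos h3, if_pos rfl]
  · intro v h1 h2
    have h3 : v ∈ X.σ.S := hP.sub h1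
    have h4 := (hW.phs_rng v h3 h2).2
    show (if (if v ∈ Bp G X.σ (X.D (X.cell z)) ω z then X.np + 1 else X.phs v) =
      X.np + 1 then r else X.rt (if v ∈ Bp G X.σ (X.D (X.cell z)) ω z then X.np + 1 else X.phs v)) ≠ r
    rw [if_neg (fun h => hBn v h h3), if_neg (by omega)]
    exact hP.rt0 v h1 h2
  · intro i h1 h2 h3
    have h4 := (hW.ph_rng i h1 h2).2
    have h5 : (if X.ph i = X.np + 1 then r else X.rt (X.ph i)) = r := h3
    rw [if_neg (by omega)] at h5
    have h6 := hP.le i h1 h2 h5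
    show X.e i < G.t e
    omega
  · intro h1 h2
    have h3 : e ∉ {u | Area G σ1.pi z (G.t vl) u} := by
      intro h4
      have hN : G.t vl ≤ G.N := (Pool.Agent.W_a4f561_B31.t_lt_of_inn G hvi).le
      have h5 := (Pool.Agent.W_a4f561_P2.area_t hch hN h4).2.2
      omega
    have h2' : e ∉ σ1.S := h2
    show 1 ≤ X.np + 1 ∧ (if X.np + 1 = X.np + 1 then r else X.rt (X.np + 1)) = r ∧
      Mv X.par X.cls (if X.np + 1 = X.np + 1 then X.cell z else X.lc (X.np + 1))
        (if e ∈ {u | Area G σ1.pi z (G.t vl) u} then X.cell z else X.cell e) ∧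
      G.t (if X.np + 1 = X.np + 1 then z else X.st (X.np + 1)) ≤ G.t e
    rw [if_pos rfl, if_pos rfl, if_pos rfl, if_neg h3]
    refine ⟨by omega, rfl, ?_, by omega⟩
    obtain ⟨h4, h5⟩ := heE
    have heS : e ∉ X.σ.S := fun h => h2' ((hD.S e).2 (Or.inl h))
    rcases h4 with h4 | h4 | h4
    · exact Or.inl ⟨h4, fun h => h5 ⟨heS, h.symm⟩⟩
    · exact absurd h4.1.1 heS
    · exact Or.inr h4
  · intro h1
    exfalso
    have h2 := orb_t hW.inv.ch hP.orb
    rw [← h1] at h2
    omega

end Pool.Agent.W_a4f561_P70
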